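import Pool.Agent.N636.FM.All

/-!
FO+MOD transductions of classes of finite graphs are strictly more powerful than FO transductions:
there are infinite classes `C` and `D` of finite graphs such that `D` is an FO+MOD transduction of
`C` but not an FO transduction of `C`.

Idea of the proof. The members of `C` are block graphs: take a linear `t`-uniform hypergraph of high
girth on `s` vertices with `N` blocks, `N` much larger than `s log s`, delete one vertex from some
of the blocks and replace the blocks by cliques. The member of `D` made from it consists of the
cliques with an odd number of vertices: an edge is kept if its ends have an odd number of common
neighbours. By a locality argument (for graphs with unbounded degrees but high girth) every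
first-order definable binary relation on such a coloured graph is determined by boundedly many
colours of the vertices and by the short paths of blocks between two vertices, where a block is seen
only through the numbers of its vertices with the various colours, counted up to a threshold. So for
a fixed transduction and a fixed way to identify the vertices of the output with vertices of the
input the deletions in most of the blocks are invisible, and there are only `2^{O(s log s)}` such
identifications and colourings, fewer than the `2^{N/2}` choices of the deletions which remain. The
members of `C` of different sizes are treated with the help of very fast growing girths.

Paper proof by helper636; Lean proofs of the parts by helper636 and helpers 31, 128, 216, 277, 296,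
395, 499, 519, 531, 572, 655, 765, 771, 787, 896, 954.
-/

set_option autoImplicit false

namespace Pool.Agent.Results.MP_e18332_lc.ModBeatsFO

open Pool.Agent.N636.FM

/-- There are isomorphism-closed classes `C` and `D` of finite graphs with members of unbounded size
such that `D` is an FO+MOD transduction of `C` but not an FO transduction of `C`. -/
theorem result : ∃ C D : Set FGraph,
    (∀ G ∈ C, ∀ G' : FGraph, Nonempty (G.2 ≃g G'.2) → G' ∈ C) ∧
    (∀ H ∈ D, ∀ H' : FGraph, Nonempty (H.2 ≃g H'.2) → H' ∈ D) ∧
    (∀ n : ℕ, ∃ G ∈ C, n < G.1) ∧ (∀ n : ℕ, ∃ H ∈ D, n < H.1) ∧
    (∃ T : Trans, Transduces T C D) ∧ ∀ T : Trans, T.IsFO → ¬ Transduces T C D := main

end Pool.Agent.Results.MP_e18332_lc.ModBeatsFO
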